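import Pool.Agent.Q54.CC.Ts
import Pool.Agent.Q54.CC.Tg

/-!
# Homology theories with values in an abelian category
-/

set_option autoImplicit false

universe u v w

namespace Q54.HT

open Q54.CU CategoryTheory Limits AlgebraicGeometry

variable {k : Type u} [Field k] {𝓜 : Type w} [Category.{v} 𝓜] [Abelian 𝓜]

/-- Maps of a localization sequence `h_n(Z, s) → h_n(X, s) → h_n(U, s) → h_n(Z, s - 1)`. -/
structure LocSeq (h : ℤ → ℤ → SchO k → 𝓜) (Z X U : SchO k) where
  a : ∀ n s, h n s Z ⟶ h n s X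
  b : ∀ n s, h n s X ⟶ h n s U
  d : ∀ n s, h n (s + 1) U ⟶ h n s Z

/-- The sequence is exact. -/
def LocSeq.IsExact {h : ℤ → ℤ → SchO k → 𝓜} {Z X U : SchO k} (t : LocSeq h Z X U) : Prop :=
  ∀ n s, ExactAt (t.a n s) (t.b n s) ∧ ExactAt (t.b n (s + 1)) (t.d n s) ∧
    ExactAt (t.d n s) (t.a n s)

/-- The direct sum of `X` and `Y`. -/
noncomputable abbrev dsum (X Y : 𝓜) : 𝓜 := X ⊞ Y

/-- The formal properties of Borel-Moore homology with Tate twists. Here `h n s X` stands for the
object `H_(2 n + s)(X)(-n)` of an abelian category `𝓜` (mixed Hodge structures, representations of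
a Galois group, or mixed motives): localization sequences, homotopy invariance for affine bundles,
the formula for the product with `𝔾ₘ`, `H_i(Spec k) = 0` for `i ≠ 0`, and `H_i(X) = 0` for large
`i`. -/
structure IsHomology (h : ℤ → ℤ → SchO k → 𝓜) : Prop where
  localization : ∀ {Z X U : SchO k} (i : Z ⟶ X) (j : U ⟶ X), IsVar X → IsDecomp i j →
    ∃ t : LocSeq h Z X U, t.IsExact
  homotopy : ∀ {E B : SchO k} (r : ℕ) (p : E ⟶ B), IsVar E → IsVar B → IsAffineBundle r p.left →
    ∀ n s, Nonempty (h n s B ≅ h (n + r) s E)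
  torus : ∀ (B : Type u) [CommRing B] [Algebra k B], Algebra.FiniteType k B → ∀ n s,
    Nonempty (h n s (Q54.CC.torO k B) ≅
      dsum (h (n - 1) s (Q54.CC.specO k B)) (h n (s - 1) (Q54.CC.specO k B)))
  point : ∀ n s, 2 * n + s ≠ 0 → IsZero (h n s (pt k))
  bounded : ∀ X, IsVar X → ∃ N : ℤ, ∀ n s, N < 2 * n + s → IsZero (h n s X)

end Q54.HT
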