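import Pool.Agent.Q54.HT.Rat

/-!
# Formal periods
-/

set_option autoImplicit false

universe u v w

namespace Q54.HT

open CategoryTheory Limits

/-- The map on the realization `R` given by a morphism. -/
def fwd {𝓜 : Type w} [Category.{v} 𝓜] {F : Type} [Field F] (R : 𝓜 ⥤ ModuleCat.{u} F) {M N : 𝓜} (f : M ⟶ N) :
    R.obj M →ₗ[F] R.obj N := (R.map f).hom

/-- The transpose of the map on the realization `R` given by a morphism. -/
def bwd {𝓜 : Type w} [Category.{v} 𝓜] {F : Type} [Field F] (R : 𝓜 ⥤ ModuleCat.{u} F) {M N : 𝓜} (f : M ⟶ N)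
    (σ : Module.Dual F (R.obj N)) : Module.Dual F (R.obj M) := σ.comp (fwd R f)

/-- Realizations and periods for the category `𝓜` of motives over the field `F` of complex numbers:
two exact functors, `dR` with values in vector spaces over `F` (de Rham realization) and `B` with
values in vector spaces over `ℚ` (Betti realization), and the integral `int M ω σ` of `ω` in `dR M`
over `σ` in the dual of `B M`. -/
structure PeriodTheory (𝓜 : Type w) [Category.{v} 𝓜] [Abelian 𝓜] (F : Type) [Field F] where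
  emb : F →+* ℂ
  dR : 𝓜 ⥤ ModuleCat.{u} F
  B : 𝓜 ⥤ ModuleCat.{u} ℚ
  dR_additive : dR.Additive
  B_additive : B.Additive
  dR_left : PreservesFiniteLimits dR
  dR_right : PreservesFiniteColimits dR
  B_left : PreservesFiniteLimits B
  B_right : PreservesFiniteColimits B
  int : ∀ M : 𝓜, dR.obj M → Module.Dual ℚ (B.obj M) → ℂ
  int_add : ∀ M ω ω' σ, int M (ω + ω') σ = int M ω σ + int M ω' σ
  int_smul : ∀ M (a : F) ω σ, int M (a • ω) σ = emb a * int M ω σ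
  int_add' : ∀ M ω σ σ', int M ω (σ + σ') = int M ω σ + int M ω σ'
  int_smul' : ∀ M (q : ℚ) ω σ, int M ω (q • σ) = (q : ℂ) * int M ω σ
  int_map : ∀ {M N : 𝓜} (f : M ⟶ N) (ω : dR.obj M) (σ : Module.Dual ℚ (B.obj N)),
    int N (fwd dR f ω) σ = int M ω (bwd B f σ)

variable {𝓜 : Type w} [Category.{v} 𝓜] [Abelian 𝓜] {F : Type} [Field F]

/-- A symbol `(M, ω, σ)` with `ω` in `dR M` and `σ` in the dual of `B M`. -/
structure Symb (p : PeriodTheory.{u} 𝓜 F) where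
  obj : 𝓜
  form : p.dR.obj obj
  cyc : Module.Dual ℚ (p.B.obj obj)

/-- A symbol as an element of the free abelian group. -/
def sy (p : PeriodTheory.{u} 𝓜 F) (M : 𝓜) (ω : p.dR.obj M) (σ : Module.Dual ℚ (p.B.obj M)) :
    FreeAbelianGroup (Symb p) := FreeAbelianGroup.of ⟨M, ω, σ⟩

/-- The relations between symbols: bilinearity and functoriality. -/
inductive Rel (p : PeriodTheory.{u} 𝓜 F) : FreeAbelianGroup (Symb p) → FreeAbelianGroup (Symb p) → Prop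
  | form (M : 𝓜) (ω ω' : p.dR.obj M) (σ : Module.Dual ℚ (p.B.obj M)) :
    Rel p (sy p M (ω + ω') σ) (sy p M ω σ + sy p M ω' σ)
  | cyc (M : 𝓜) (ω : p.dR.obj M) (σ σ' : Module.Dual ℚ (p.B.obj M)) :
    Rel p (sy p M ω (σ + σ')) (sy p M ω σ + sy p M ω σ')
  | smul (M : 𝓜) (q : ℚ) (ω : p.dR.obj M) (σ : Module.Dual ℚ (p.B.obj M)) :
    Rel p (sy p M ((q : F) • ω) σ) (sy p M ω (q • σ))
  | map (M N : 𝓜) (f : M ⟶ N) (ω : p.dR.obj M) (σ : Module.Dual ℚ (p.B.obj N)) :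
    Rel p (sy p N (fwd p.dR f ω) σ) (sy p M ω (bwd p.B f σ))

/-- The subgroup given by the relations. -/
def relGroup (p : PeriodTheory.{u} 𝓜 F) : AddSubgroup (FreeAbelianGroup (Symb p)) :=
  AddSubgroup.closure {x | ∃ a b, Rel p a b ∧ x = a - b}

/-- The group of the formal periods. -/
abbrev Formal (p : PeriodTheory.{u} 𝓜 F) : Type (max u w) :=
  FreeAbelianGroup (Symb p) ⧸ relGroup p

/-- The class of a symbol. -/
def cls (p : PeriodTheory.{u} 𝓜 F) (M : 𝓜) (ω : p.dR.obj M) (σ : Module.Dual ℚ (p.B.obj M)) : Formal p :=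
  QuotientAddGroup.mk (sy p M ω σ)

variable {p : PeriodTheory.{u} 𝓜 F}

lemma mk_rel {a b : FreeAbelianGroup (Symb p)} (h : Rel p a b) :
    (QuotientAddGroup.mk a : Formal p) = QuotientAddGroup.mk b := by
  rw [← sub_eq_zero, ← QuotientAddGroup.mk_sub]
  exact (QuotientAddGroup.eq_zero_iff _).2 (AddSubgroup.subset_closure ⟨a, b, h, rfl⟩)

lemma cls_add_form (M : 𝓜) (ω ω' : p.dR.obj M) (σ : Module.Dual ℚ (p.B.obj M)) :
    cls p M (ω + ω') σ = cls p M ω σ + cls p M ω' σ :=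
  mk_rel (Rel.form M ω ω' σ)

lemma cls_add_cyc (M : 𝓜) (ω : p.dR.obj M) (σ σ' : Module.Dual ℚ (p.B.obj M)) :
    cls p M ω (σ + σ') = cls p M ω σ + cls p M ω σ' :=
  mk_rel (Rel.cyc M ω σ σ')

lemma cls_map {M N : 𝓜} (f : M ⟶ N) (ω : p.dR.obj M) (σ : Module.Dual ℚ (p.B.obj N)) :
    cls p N (fwd p.dR f ω) σ = cls p M ω (bwd p.B f σ) :=
  mk_rel (Rel.map M N f ω σ)

lemma cls_zero_form (M : 𝓜) (σ : Module.Dual ℚ (p.B.obj M)) : cls p M 0 σ = 0 := by
  have h := cls_add_form M (0 : p.dR.obj M) 0 σ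
  rw [add_zero] at h
  exact left_eq_add.1 h

lemma cls_zero_cyc (M : 𝓜) (ω : p.dR.obj M) : cls p M ω 0 = 0 := by
  have h := cls_add_cyc M ω (0 : Module.Dual ℚ (p.B.obj M)) 0
  rw [add_zero] at h
  exact left_eq_add.1 h

lemma cls_neg (M : 𝓜) (ω : p.dR.obj M) (σ : Module.Dual ℚ (p.B.obj M)) : cls p M (-ω) σ = -cls p M ω σ := by
  rw [eq_neg_iff_add_eq_zero, ← cls_add_form, neg_add_cancel, cls_zero_form]

section maps

variable {K : Type} [Field K] (R : 𝓜 ⥤ ModuleCat.{u} K)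

lemma fwd_comp {X Y Z : 𝓜} (f : X ⟶ Y) (g : Y ⟶ Z) (ω : R.obj X) :
    fwd R (f ≫ g) ω = fwd R g (fwd R f ω) := by
  rw [fwd, R.map_comp]
  rfl

lemma fwd_id {X : 𝓜} (ω : R.obj X) : fwd R (𝟙 X) ω = ω := by
  rw [fwd, R.map_id]
  rfl

lemma fwd_add (hR : R.Additive) {X Y : 𝓜} (f g : X ⟶ Y) (ω : R.obj X) :
    fwd R (f + g) ω = fwd R f ω + fwd R g ω := by
  rw [fwd, R.map_add]
  rfl

lemma fwd_zero (hR : R.Additive) {X Y : 𝓜} (ω : R.obj X) : fwd R (0 : X ⟶ Y) ω = 0 := by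
  rw [fwd, R.map_zero]
  rfl

lemma bwd_comp {X Y Z : 𝓜} (f : X ⟶ Y) (g : Y ⟶ Z) (σ : Module.Dual K (R.obj Z)) :
    bwd R (f ≫ g) σ = bwd R f (bwd R g σ) := by
  ext x
  exact congrArg σ (fwd_comp R f g x)

lemma bwd_id {X : 𝓜} (σ : Module.Dual K (R.obj X)) : bwd R (𝟙 X) σ = σ := by
  ext x
  exact congrArg σ (fwd_id R x)

lemma bwd_add (hR : R.Additive) {X Y : 𝓜} (f g : X ⟶ Y) (σ : Module.Dual K (R.obj Y)) :
    bwd R (f + g) σ = bwd R f σ + bwd R g σ := by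
  ext x
  exact (congrArg σ (fwd_add R hR f g x)).trans (map_add σ _ _)

lemma bwd_zero (hR : R.Additive) {X Y : 𝓜} (σ : Module.Dual K (R.obj Y)) : bwd R (0 : X ⟶ Y) σ = 0 := by
  ext x
  exact (congrArg σ (fwd_zero R hR x)).trans (map_zero σ)

lemma bwd_cyc_add {X Y : 𝓜} (f : X ⟶ Y) (σ τ : Module.Dual K (R.obj Y)) :
    bwd R f (σ + τ) = bwd R f σ + bwd R f τ := rfl

lemma bwd_cyc_neg {X Y : 𝓜} (f : X ⟶ Y) (σ : Module.Dual K (R.obj Y)) :
    bwd R f (-σ) = -bwd R f σ := rfl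

lemma bwd_cyc_zero {X Y : 𝓜} (f : X ⟶ Y) : bwd R f 0 = 0 := rfl

end maps

/-- The sum of two symbols. -/
lemma cls_sum (M N : 𝓜) (ω : p.dR.obj M) (σ : Module.Dual ℚ (p.B.obj M)) (ω' : p.dR.obj N)
    (σ' : Module.Dual ℚ (p.B.obj N)) : ∃ (ω'' : p.dR.obj (M ⊞ N)) (σ'' : Module.Dual ℚ (p.B.obj (M ⊞ N))),
      cls p M ω σ + cls p N ω' σ' = cls p (M ⊞ N) ω'' σ'' := by
  have := p.B_additive
  refine ⟨fwd p.dR biprod.inl ω + fwd p.dR biprod.inr ω', bwd p.B biprod.fst σ + bwd p.B biprod.snd σ', ?_⟩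
  rw [cls_add_form, cls_add_cyc, cls_add_cyc, cls_map, cls_map, cls_map, cls_map, ← bwd_comp, ← bwd_comp,
    ← bwd_comp, ← bwd_comp, biprod.inl_fst, biprod.inl_snd, biprod.inr_fst, biprod.inr_snd, bwd_id, bwd_id,
    bwd_zero _ this, bwd_zero _ this, cls_zero_cyc, cls_zero_cyc, add_zero, zero_add]

/-- Every formal period is the class of one symbol. -/
theorem exists_cls (x : Formal p) : ∃ (M : 𝓜) (ω : p.dR.obj M) (σ : Module.Dual ℚ (p.B.obj M)), x = cls p M ω σ := by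
  obtain ⟨a, rfl⟩ := QuotientAddGroup.mk_surjective x
  induction a using FreeAbelianGroup.induction_on with
  | zero =>
    obtain ⟨Z, _⟩ := (inferInstance : HasZeroObject 𝓜).zero
    exact ⟨Z, 0, 0, (cls_zero_form _ _).symm⟩
  | of s => exact ⟨s.obj, s.form, s.cyc, rfl⟩
  | neg s =>
    refine ⟨s.obj, -s.form, s.cyc, ?_⟩
    rw [cls_neg]
    rfl
  | add a b ha hb =>
    obtain ⟨M, ω, σ, h1⟩ := ha
    obtain ⟨N, ω', σ', h2⟩ := hb
    obtain ⟨ω'', σ'', h3⟩ := cls_sum M N ω σ ω' σ'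
    refine ⟨M ⊞ N, ω'', σ'', ?_⟩
    rw [← h3, ← h1, ← h2]
    rfl

/-- Symbols of subquotients. -/
lemma cls_subquot {M N : 𝓜} (h : IsSubquot M N) (ω : p.dR.obj M) (σ : Module.Dual ℚ (p.B.obj M)) :
    ∃ (ω' : p.dR.obj N) (σ' : Module.Dual ℚ (p.B.obj N)), cls p M ω σ = cls p N ω' σ' := by
  obtain ⟨L, i, q, hi, hq⟩ := h
  have h1 := p.dR_right
  have h2 := p.B_left
  have h3 : Function.Surjective (fwd p.dR q) := (ModuleCat.epi_iff_surjective _).1 inferInstance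
  have h4 : Function.Injective (fwd p.B i) := (ModuleCat.mono_iff_injective _).1 inferInstance
  obtain ⟨ω₀, rfl⟩ := h3 ω
  obtain ⟨σ', hσ'⟩ := LinearMap.dualMap_surjective_of_injective h4 (bwd p.B q σ)
  refine ⟨fwd p.dR i ω₀, σ', ?_⟩
  rw [cls_map, cls_map]
  congr 1
  exact hσ'.symm

/-- The value of a combination of symbols. -/
noncomputable def evSymb (p : PeriodTheory.{u} 𝓜 F) : FreeAbelianGroup (Symb p) →+ ℂ :=
  FreeAbelianGroup.lift fun s : Symb p => p.int s.obj s.form s.cyc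

lemma evSymb_sy (M : 𝓜) (ω : p.dR.obj M) (σ : Module.Dual ℚ (p.B.obj M)) : evSymb p (sy p M ω σ) = p.int M ω σ :=
  FreeAbelianGroup.lift_apply_of _ _

lemma relGroup_le_ker (p : PeriodTheory.{u} 𝓜 F) : relGroup p ≤ (evSymb p).ker := by
  rw [relGroup, AddSubgroup.closure_le]
  rintro x ⟨a, b, hx, rfl⟩
  change evSymb p (a - b) = 0
  cases hx with
  | form M ω ω' σ => rw [map_sub, map_add, evSymb_sy, evSymb_sy, evSymb_sy, p.int_add, sub_self]
  | cyc M ω σ σ' => rw [map_sub, map_add, evSymb_sy, evSymb_sy, evSymb_sy, p.int_add', sub_self]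
  | smul M q ω σ => rw [map_sub, evSymb_sy, evSymb_sy, p.int_smul, p.int_smul', map_ratCast, sub_self]
  | map M N f ω σ => rw [map_sub, evSymb_sy, evSymb_sy, p.int_map, sub_self]

/-- The evaluation map. -/
noncomputable def ev (p : PeriodTheory.{u} 𝓜 F) : Formal p →+ ℂ :=
  QuotientAddGroup.lift (relGroup p) (evSymb p) (relGroup_le_ker p)

lemma ev_cls (M : 𝓜) (ω : p.dR.obj M) (σ : Module.Dual ℚ (p.B.obj M)) : ev p (cls p M ω σ) = p.int M ω σ :=
  evSymb_sy _ _ _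

end Q54.HT
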