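import Pool.Agent.Q54.HT.Fp

/-!
# When a symbol is zero as a formal period
-/

set_option autoImplicit false

universe u v w

namespace Q54.HT

open CategoryTheory Limits

variable {𝓜 : Type w} [Category.{v} 𝓜] [Abelian 𝓜] {F : Type} [Field F] {p : PeriodTheory.{u} 𝓜 F}

/-- Two symbols have a common refinement. -/
def Rl (p : PeriodTheory.{u} 𝓜 F) (s t : Symb p) : Prop :=
  ∃ (L : 𝓜) (f : L ⟶ s.obj) (g : L ⟶ t.obj) (ω : p.dR.obj L),
    fwd p.dR f ω = s.form ∧ fwd p.dR g ω = t.form ∧ bwd p.B f s.cyc = bwd p.B g t.cyc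

lemma exists_kernel {X Y : 𝓜} (φ : X ⟶ Y) (x : p.dR.obj X) (hx : fwd p.dR φ x = 0) :
    ∃ μ : p.dR.obj (kernel φ), fwd p.dR (kernel.ι φ) μ = x := by
  have := p.dR_left
  have := p.dR_additive
  let S : ShortComplex 𝓜 := ShortComplex.mk (kernel.ι φ) φ (kernel.condition φ)
  have hS : S.Exact := ShortComplex.exact_kernel φ
  have h1 : (S.map p.dR).Exact := hS.map_of_mono_of_preservesKernel p.dR inferInstance inferInstance
  exact (ShortComplex.moduleCat_exact_iff _).1 h1 x hx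

/-- Two forms with the same image come from one form. -/
lemma exists_pull {L L' N : 𝓜} (f : L ⟶ N) (f' : L' ⟶ N) (ω : p.dR.obj L) (ω' : p.dR.obj L')
    (h : fwd p.dR f ω = fwd p.dR f' ω') :
    ∃ (P : 𝓜) (a : P ⟶ L) (b : P ⟶ L') (μ : p.dR.obj P), a ≫ f = b ≫ f' ∧
      fwd p.dR a μ = ω ∧ fwd p.dR b μ = ω' := by
  have hR := p.dR_additive
  have e1 : (biprod.inl : L ⟶ L ⊞ L') ≫ (biprod.fst ≫ f - biprod.snd ≫ f') = f := by simp
  have e2 : (biprod.inr : L' ⟶ L ⊞ L') ≫ (biprod.fst ≫ f - biprod.snd ≫ f') = -f' := by simp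
  obtain ⟨μ, hμ⟩ := exists_kernel (biprod.fst ≫ f - biprod.snd ≫ f')
    (fwd p.dR biprod.inl ω + fwd p.dR biprod.inr ω') (by
      rw [map_add, ← fwd_comp, ← fwd_comp, e1, e2, h, ← fwd_add _ hR, add_neg_cancel, fwd_zero _ hR])
  refine ⟨_, kernel.ι (biprod.fst ≫ f - biprod.snd ≫ f') ≫ biprod.fst,
    kernel.ι (biprod.fst ≫ f - biprod.snd ≫ f') ≫ biprod.snd, μ, ?_, ?_, ?_⟩
  · have e := kernel.condition (biprod.fst ≫ f - biprod.snd ≫ f' : L ⊞ L' ⟶ N)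
    rw [Preadditive.comp_sub] at e
    rw [Category.assoc, Category.assoc]
    exact sub_eq_zero.1 e
  · rw [fwd_comp, hμ, map_add, ← fwd_comp, ← fwd_comp, biprod.inl_fst, biprod.inr_fst, fwd_id, fwd_zero _ hR,
      add_zero]
  · rw [fwd_comp, hμ, map_add, ← fwd_comp, ← fwd_comp, biprod.inl_snd, biprod.inr_snd, fwd_id, fwd_zero _ hR,
      zero_add]

lemma lift_form {L M N : 𝓜} (f : L ⟶ M) (g : L ⟶ N) (ω : p.dR.obj L) :
    fwd p.dR (biprod.lift f g) ω = fwd p.dR biprod.inl (fwd p.dR f ω) + fwd p.dR biprod.inr (fwd p.dR g ω) := by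
  rw [← fwd_comp, ← fwd_comp, ← fwd_add _ p.dR_additive, biprod.lift_eq]

lemma lift_cyc {L M N : 𝓜} (f : L ⟶ M) (g : L ⟶ N) (σ : Module.Dual ℚ (p.B.obj M))
    (τ : Module.Dual ℚ (p.B.obj N)) :
    bwd p.B (biprod.lift f g) (bwd p.B biprod.fst σ + bwd p.B biprod.snd τ) = bwd p.B f σ + bwd p.B g τ := by
  rw [bwd_cyc_add, ← bwd_comp, ← bwd_comp, biprod.lift_fst, biprod.lift_snd]

lemma Rl.refl (s : Symb p) : Rl p s s :=
  ⟨s.obj, 𝟙 _, 𝟙 _, s.form, fwd_id _ _, fwd_id _ _, rfl⟩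

lemma Rl.symm {s t : Symb p} (h : Rl p s t) : Rl p t s := by
  obtain ⟨L, f, g, ω, h1, h2, h3⟩ := h
  exact ⟨L, g, f, ω, h2, h1, h3.symm⟩

lemma Rl.trans {s t r : Symb p} (h : Rl p s t) (h' : Rl p t r) : Rl p s r := by
  obtain ⟨L, f, g, ω, h1, h2, h3⟩ := h
  obtain ⟨L', f', g', ω', h1', h2', h3'⟩ := h'
  obtain ⟨P, a, b, μ, e, e1, e2⟩ := exists_pull g f' ω ω' (h2.trans h1'.symm)
  refine ⟨P, a ≫ f, b ≫ g', μ, ?_, ?_, ?_⟩
  · rw [fwd_comp, e1, h1]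
  · rw [fwd_comp, e2, h2']
  · rw [bwd_comp, h3, ← bwd_comp, e, bwd_comp, h3', ← bwd_comp]

instance rlSetoid (p : PeriodTheory.{u} 𝓜 F) : Setoid (Symb p) := ⟨Rl p, Rl.refl, Rl.symm, Rl.trans⟩

/-- The classes of the symbols. -/
def Cl (p : PeriodTheory.{u} 𝓜 F) : Type (max u w) := Quotient (rlSetoid p)

/-- The class of `(M, ω, σ)`. -/
def cl (p : PeriodTheory.{u} 𝓜 F) (M : 𝓜) (ω : p.dR.obj M) (σ : Module.Dual ℚ (p.B.obj M)) : Cl p :=
  Quotient.mk (rlSetoid p) ⟨M, ω, σ⟩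

lemma cl_pull {L M : 𝓜} (f : L ⟶ M) (ω : p.dR.obj L) (σ : Module.Dual ℚ (p.B.obj M)) :
    cl p M (fwd p.dR f ω) σ = cl p L ω (bwd p.B f σ) :=
  Quotient.sound ⟨L, f, 𝟙 L, ω, rfl, fwd_id _ _, (bwd_id _ _).symm⟩

/-- Two classes are given on one object by one form. -/
lemma exists_common (M N : 𝓜) (ω : p.dR.obj M) (ω' : p.dR.obj N) :
    ∃ (L : 𝓜) (f : L ⟶ M) (g : L ⟶ N) (μ : p.dR.obj L), fwd p.dR f μ = ω ∧ fwd p.dR g μ = ω' := by
  have hR := p.dR_additive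
  refine ⟨M ⊞ N, biprod.fst, biprod.snd, fwd p.dR biprod.inl ω + fwd p.dR biprod.inr ω', ?_, ?_⟩
  · rw [map_add, ← fwd_comp, ← fwd_comp, biprod.inl_fst, biprod.inr_fst, fwd_id, fwd_zero _ hR, add_zero]
  · rw [map_add, ← fwd_comp, ← fwd_comp, biprod.inl_snd, biprod.inr_snd, fwd_id, fwd_zero _ hR, zero_add]

/-- The sum of two symbols. -/
noncomputable def addSymb (s t : Symb p) : Symb p :=
  ⟨s.obj ⊞ t.obj, fwd p.dR biprod.inl s.form + fwd p.dR biprod.inr t.form,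
    bwd p.B biprod.fst s.cyc + bwd p.B biprod.snd t.cyc⟩

lemma addSymb_rl {L M N : 𝓜} (f : L ⟶ M) (g : L ⟶ N) (ω : p.dR.obj L) (σ : Module.Dual ℚ (p.B.obj M))
    (τ : Module.Dual ℚ (p.B.obj N)) :
    Rl p (addSymb ⟨M, fwd p.dR f ω, σ⟩ ⟨N, fwd p.dR g ω, τ⟩) ⟨L, ω, bwd p.B f σ + bwd p.B g τ⟩ := by
  exact ⟨L, biprod.lift f g, 𝟙 L, ω, lift_form f g ω, fwd_id _ _, (lift_cyc f g σ τ).trans (bwd_id _ _).symm⟩

lemma addSymb_congr {s s' t t' : Symb p} (h : Rl p s s') (h' : Rl p t t') : Rl p (addSymb s t) (addSymb s' t') := by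
  obtain ⟨M, s1, s2⟩ := s
  obtain ⟨M', s1', s2'⟩ := s'
  obtain ⟨N, t1, t2⟩ := t
  obtain ⟨N', t1', t2'⟩ := t'
  obtain ⟨L, f, g, ω, h1, h2, h3⟩ := h
  obtain ⟨L', f', g', ω', h1', h2', h3'⟩ := h'
  dsimp only at f g h1 h2 h3 f' g' h1' h2' h3'
  obtain ⟨P, a, b, μ, e1, e2⟩ := exists_common L L' ω ω'
  subst e1 e2
  rw [← fwd_comp] at h1 h2 h1' h2'
  subst h1 h2 h1' h2'
  refine (addSymb_rl (a ≫ f) (b ≫ f') μ s2 t2).trans (Rl.symm ?_)
  have h4 := addSymb_rl (a ≫ g) (b ≫ g') μ s2' t2'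
  rw [bwd_comp, bwd_comp, ← h3, ← h3', ← bwd_comp, ← bwd_comp] at h4
  exact h4

noncomputable instance : Add (Cl p) := ⟨Quotient.map₂ addSymb fun _ _ h _ _ h' => addSymb_congr h h'⟩

noncomputable instance : Zero (Cl p) :=
  ⟨cl p ((inferInstance : HasZeroObject 𝓜).zero.choose) 0 0⟩

lemma cl_add (M : 𝓜) (ω : p.dR.obj M) (σ τ : Module.Dual ℚ (p.B.obj M)) :
    cl p M ω (σ + τ) = cl p M ω σ + cl p M ω τ := by
  refine Quotient.sound (Rl.symm ?_)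
  have h := addSymb_rl (𝟙 M) (𝟙 M) ω σ τ
  rw [fwd_id, bwd_id, bwd_id] at h
  exact h

lemma cl_zero (M : 𝓜) (ω : p.dR.obj M) : cl p M ω 0 = 0 := by
  have h : cl p _ (fwd p.dR (0 : M ⟶ (inferInstance : HasZeroObject 𝓜).zero.choose) ω) 0 = cl p M ω _ :=
    cl_pull _ ω 0
  rw [bwd_cyc_zero, fwd_zero _ p.dR_additive] at h
  exact h.symm

lemma exists_cl (a : Cl p) : ∃ (M : 𝓜) (ω : p.dR.obj M) (σ : Module.Dual ℚ (p.B.obj M)), a = cl p M ω σ := by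
  obtain ⟨⟨M, ω, σ⟩, rfl⟩ := Quotient.exists_rep a
  exact ⟨M, ω, σ, rfl⟩

lemma exists_cl₂ (a b : Cl p) : ∃ (M : 𝓜) (ω : p.dR.obj M) (σ τ : Module.Dual ℚ (p.B.obj M)),
    a = cl p M ω σ ∧ b = cl p M ω τ := by
  obtain ⟨M, ω, σ, rfl⟩ := exists_cl a
  obtain ⟨N, ω', τ, rfl⟩ := exists_cl b
  obtain ⟨L, f, g, μ, rfl, rfl⟩ := exists_common M N ω ω'
  exact ⟨L, μ, _, _, cl_pull f μ σ, cl_pull g μ τ⟩

lemma exists_cl₃ (a b c : Cl p) : ∃ (M : 𝓜) (ω : p.dR.obj M) (σ τ υ : Module.Dual ℚ (p.B.obj M)),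
    a = cl p M ω σ ∧ b = cl p M ω τ ∧ c = cl p M ω υ := by
  obtain ⟨M, ω, σ, τ, rfl, rfl⟩ := exists_cl₂ a b
  obtain ⟨N, ω', υ, rfl⟩ := exists_cl c
  obtain ⟨L, f, g, μ, rfl, rfl⟩ := exists_common M N ω ω'
  exact ⟨L, μ, _, _, _, cl_pull f μ σ, cl_pull f μ τ, cl_pull g μ υ⟩

/-- The negative of a symbol. -/
def negSymb (s : Symb p) : Symb p := ⟨s.obj, s.form, -s.cyc⟩

lemma negSymb_congr {s t : Symb p} (h : Rl p s t) : Rl p (negSymb s) (negSymb t) := by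
  obtain ⟨L, f, g, ω, h1, h2, h3⟩ := h
  exact ⟨L, f, g, ω, h1, h2, (bwd_cyc_neg p.B f s.cyc).trans
    ((congrArg Neg.neg h3).trans (bwd_cyc_neg p.B g t.cyc).symm)⟩

instance : Neg (Cl p) := ⟨Quotient.map negSymb fun _ _ h => negSymb_congr h⟩

lemma cl_neg (M : 𝓜) (ω : p.dR.obj M) (σ : Module.Dual ℚ (p.B.obj M)) : cl p M ω (-σ) = -cl p M ω σ := rfl

noncomputable instance : AddCommGroup (Cl p) where
  add_assoc a b c := by
    obtain ⟨M, ω, σ, τ, υ, rfl, rfl, rfl⟩ := exists_cl₃ a b c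
    rw [← cl_add, ← cl_add, ← cl_add, ← cl_add, add_assoc]
  zero_add a := by
    obtain ⟨M, ω, σ, rfl⟩ := exists_cl a
    rw [← cl_zero M ω, ← cl_add, zero_add]
  add_zero a := by
    obtain ⟨M, ω, σ, rfl⟩ := exists_cl a
    rw [← cl_zero M ω, ← cl_add, add_zero]
  add_comm a b := by
    obtain ⟨M, ω, σ, τ, rfl, rfl⟩ := exists_cl₂ a b
    rw [← cl_add, ← cl_add, add_comm]
  neg_add_cancel a := by
    obtain ⟨M, ω, σ, rfl⟩ := exists_cl a
    rw [← cl_neg, ← cl_add, neg_add_cancel, cl_zero]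
  nsmul := nsmulRec
  zsmul := zsmulRec

lemma cl_add_form (M : 𝓜) (ω ω' : p.dR.obj M) (σ : Module.Dual ℚ (p.B.obj M)) :
    cl p M (ω + ω') σ = cl p M ω σ + cl p M ω' σ := by
  obtain ⟨L, f, g, μ, rfl, rfl⟩ := exists_common M M ω ω'
  rw [← fwd_add _ p.dR_additive, cl_pull, cl_pull, cl_pull, bwd_add _ p.B_additive, cl_add]

/-- Multiplication by an integer. -/
lemma cl_zsmul (M : 𝓜) (n : ℤ) (ω : p.dR.obj M) (σ : Module.Dual ℚ (p.B.obj M)) :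
    cl p M (n • ω) σ = cl p M ω (n • σ) := by
  have := p.dR_additive
  have := p.B_additive
  have h := cl_pull (n • 𝟙 M) ω σ
  have h1 : fwd p.dR (n • 𝟙 M) ω = n • ω := by
    rw [fwd, p.dR.map_zsmul, p.dR.map_id]
    simp
  have h2 : bwd p.B (n • 𝟙 M) σ = n • σ := by
    rw [bwd, fwd, p.B.map_zsmul, p.B.map_id]
    ext x
    simp
  rw [h1, h2] at h
  exact h

lemma cl_smul [CharZero F] (M : 𝓜) (q : ℚ) (ω : p.dR.obj M) (σ : Module.Dual ℚ (p.B.obj M)) :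
    cl p M ((q : F) • ω) σ = cl p M ω (q • σ) := by
  have hd : (q.den : F) ≠ 0 := Nat.cast_ne_zero.2 q.den_ne_zero
  have hd' : (q.den : ℚ) ≠ 0 := Nat.cast_ne_zero.2 q.den_ne_zero
  have e1 : (q : F) • ω = q.num • ((q.den : F)⁻¹ • ω) := by
    rw [← Int.cast_smul_eq_zsmul F q.num, smul_smul, ← div_eq_mul_inv]
    congr 1
    conv_lhs => rw [← Rat.num_div_den q]
    push_cast
    rfl
  have e2 : q.num • σ = (q.den : ℤ) • (q • σ) := by
    rw [← Int.cast_smul_eq_zsmul ℚ q.num, ← Int.cast_smul_eq_zsmul ℚ (q.den : ℤ), smul_smul]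
    congr 1
    push_cast
    rw [mul_comm]
    exact (Rat.mul_den_eq_num q).symm
  have e3 : (q.den : ℤ) • ((q.den : F)⁻¹ • ω) = ω := by
    rw [← Int.cast_smul_eq_zsmul F (q.den : ℤ), smul_smul]
    push_cast
    rw [mul_inv_cancel₀ hd, one_smul]
  rw [e1, cl_zsmul, e2, ← cl_zsmul, e3]

/-- The classes of the combinations of symbols. -/
noncomputable def clSymb (p : PeriodTheory.{u} 𝓜 F) : FreeAbelianGroup (Symb p) →+ Cl p :=
  FreeAbelianGroup.lift fun s : Symb p => cl p s.obj s.form s.cyc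

lemma clSymb_sy (M : 𝓜) (ω : p.dR.obj M) (σ : Module.Dual ℚ (p.B.obj M)) : clSymb p (sy p M ω σ) = cl p M ω σ :=
  FreeAbelianGroup.lift_apply_of _ _

/-- The classes of the formal periods. -/
noncomputable def toCl (p : PeriodTheory.{u} 𝓜 F) : Formal p →+ Cl p :=
  QuotientAddGroup.lift (relGroup p) (clSymb p) (by
    have : CharZero F := p.emb.charZero
    rw [relGroup, AddSubgroup.closure_le]
    rintro x ⟨a, b, hx, rfl⟩
    change clSymb p (a - b) = 0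
    cases hx with
    | form M ω ω' σ => rw [map_sub, map_add, clSymb_sy, clSymb_sy, clSymb_sy, cl_add_form, sub_self]
    | cyc M ω σ σ' => rw [map_sub, map_add, clSymb_sy, clSymb_sy, clSymb_sy, cl_add, sub_self]
    | smul M q ω σ => rw [map_sub, clSymb_sy, clSymb_sy, cl_smul, sub_self]
    | map M N f ω σ => rw [map_sub, clSymb_sy, clSymb_sy, cl_pull, sub_self])

lemma toCl_cls (M : 𝓜) (ω : p.dR.obj M) (σ : Module.Dual ℚ (p.B.obj M)) : toCl p (cls p M ω σ) = cl p M ω σ :=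
  clSymb_sy _ _ _

/-- There is a subobject of `M` whose de Rham realization contains `ω` and whose Betti realization is
killed by `σ`. -/
def HasReason (p : PeriodTheory.{u} 𝓜 F) (M : 𝓜) (ω : p.dR.obj M) (σ : Module.Dual ℚ (p.B.obj M)) : Prop :=
  ∃ (L : 𝓜) (i : L ⟶ M), Mono i ∧ (∃ ω' : p.dR.obj L, fwd p.dR i ω' = ω) ∧ bwd p.B i σ = 0

/-- **A symbol is zero as a formal period if and only if there is a reason for it.** -/
theorem cls_eq_zero_iff (M : 𝓜) (ω : p.dR.obj M) (σ : Module.Dual ℚ (p.B.obj M)) :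
    cls p M ω σ = 0 ↔ HasReason p M ω σ := by
  constructor
  · intro h
    have h1 : cl p M ω σ = cl p M ω 0 := by
      rw [cl_zero, ← toCl_cls, h, map_zero]
    obtain ⟨L, f, g, ω', h2, h3, h4⟩ : Rl p ⟨M, ω, σ⟩ ⟨M, ω, 0⟩ := Quotient.exact h1
    dsimp only at f g h2 h3 h4
    rw [bwd_cyc_zero] at h4
    refine ⟨image f, image.ι f, inferInstance, ⟨fwd p.dR (factorThruImage f) ω', ?_⟩, ?_⟩
    · rw [← fwd_comp, image.fac, h2]
    · have := p.B_right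
      have h6 : Function.Surjective (fwd p.B (factorThruImage f)) :=
        (ModuleCat.epi_iff_surjective _).1 inferInstance
      have h7 : bwd p.B (factorThruImage f) (bwd p.B (image.ι f) σ) = 0 := by
        rw [← bwd_comp, image.fac, h4]
      ext x
      obtain ⟨y, rfl⟩ := h6 x
      exact LinearMap.congr_fun h7 y
  · rintro ⟨L, i, _, ⟨ω', rfl⟩, h⟩
    rw [cls_map, h, cls_zero_cyc]

end Q54.HT
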