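import Pool.Agent.Q54.HT.Main
import Pool.Agent.Q54.CC.Row

/-!
# Classes that come from another category
-/

set_option autoImplicit false

universe u v w v' w'

namespace Q54.HT

open Q54.CU Q54.CC CategoryTheory Limits AlgebraicGeometry

variable {k : Type u} [Field k] {𝓜 : Type w} [Category.{v} 𝓜] [Abelian 𝓜]
  {𝓝 : Type w'} [Category.{v'} 𝓝] [Abelian 𝓝] (F : 𝓜 ⥤ 𝓝) (I : 𝓜)

/-- Every morphism `F(I) ⟶ F(A)` comes from a morphism `I ⟶ A`. -/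
def Lifts (A : 𝓜) : Prop := ∀ g : F.obj I ⟶ F.obj A, ∃ f : I ⟶ A, F.map f = g

variable {F I}

omit [Abelian 𝓜] [Abelian 𝓝] in
lemma Lifts.iso {A B : 𝓜} (e : A ≅ B) (h : Lifts F I A) : Lifts F I B := by
  intro g
  obtain ⟨f, hf⟩ := h (g ≫ F.map e.inv)
  refine ⟨f ≫ e.hom, ?_⟩
  rw [F.map_comp, hf, Category.assoc, ← F.map_comp, e.inv_hom_id, F.map_id, Category.comp_id]

omit [Abelian 𝓜] [Abelian 𝓝] in
lemma lifts_iso {A B : 𝓜} (e : A ≅ B) : Lifts F I A ↔ Lifts F I B :=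
  ⟨fun h => h.iso e, fun h => h.iso e.symm⟩

omit [Abelian 𝓝] in
lemma Lifts.fst {A B : 𝓜} (h : Lifts F I (A ⊞ B)) : Lifts F I A := by
  intro g
  obtain ⟨f, hf⟩ := h (g ≫ F.map biprod.inl)
  refine ⟨f ≫ biprod.fst, ?_⟩
  rw [F.map_comp, hf, Category.assoc, ← F.map_comp, biprod.inl_fst, F.map_id, Category.comp_id]

lemma lifts_biprod [F.Additive] {A B : 𝓜} (hB : ∀ g : F.obj I ⟶ F.obj B, g = 0) :
    Lifts F I (A ⊞ B) ↔ Lifts F I A := by
  refine ⟨fun h => h.fst, fun h g => ?_⟩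
  obtain ⟨f, hf⟩ := h (g ≫ F.map biprod.fst)
  refine ⟨f ≫ biprod.inl, ?_⟩
  have h1 : (𝟙 (A ⊞ B) : A ⊞ B ⟶ A ⊞ B) = biprod.fst ≫ biprod.inl + biprod.snd ≫ biprod.inr :=
    biprod.total.symm
  have h2 : g = g ≫ F.map (biprod.fst ≫ biprod.inl + biprod.snd ≫ biprod.inr) := by
    rw [← h1, F.map_id, Category.comp_id]
  have h3 : g ≫ F.map (biprod.snd : A ⊞ B ⟶ B) = 0 := hB _
  rw [h2, F.map_add, F.map_comp, F.map_comp, F.map_comp, Preadditive.comp_add, ← Category.assoc,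
    ← Category.assoc, h3, zero_comp, add_zero, hf]

/-- The hypersurfaces that are compared with `X`; the degrees are at most the dimension. -/
theorem exists_compares' {h : ℤ → ℤ → SchO k → 𝓜} (hh : IsHomology h) {X : SchO k} (hX : IsVar X)
    (hT : HasAffineTorsor X) (N : ℤ) :
    ∃ (M r c : ℕ) (T : Fin (M + 1) → Fin (M + 1) → Fin (r + 1) → k),
      N + 2 * c < 2 * (2 * M + r) ∧ Compares h X (tenO T 0) (tenO T 1) c N := by
  obtain ⟨Y, t, p, hY, ha, hp⟩ := hT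
  obtain ⟨M, r, T, i, hM, hd⟩ := exists_tensor Y hY.ft ha (N + 2 * t + 3).toNat
  refine ⟨M, r, t + r, T, by push_cast; omega, fun n s hn => ?_⟩
  have hb : 2 * (n + t) + s + 2 < 2 * ((M + M : ℕ) : ℤ) := by
    push_cast
    omega
  obtain ⟨e1⟩ := hh.homotopy t p hY hX hp n s
  obtain ⟨e2⟩ := hh.homotopy t p hY hX hp (n + 1) (s - 1)
  obtain ⟨f⟩ := hh.cone_iso (tq T) i hd hb
  obtain ⟨g⟩ := hh.smooth_iso (n := n + t) (s := s) (tq T) i hd (by omega) (by omega)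
  rw [add_right_comm n 1 (t : ℤ)] at e2
  have h1 : n + ((t + r : ℕ) : ℤ) = n + t + r := by
    push_cast
    ring
  rw [h1]
  exact ⟨⟨f ≪≫ biprod.mapIso e1.symm e2.symm⟩, ⟨g ≪≫ e1.symm⟩⟩

/-- The classes in the homology of `X` come from another category. -/
theorem lifts_main [F.Additive] {h : ℤ → ℤ → SchO k → 𝓜} (hh : IsHomology h)
    (hw : ∀ n s X, IsVar X → s < 0 → ∀ g : F.obj I ⟶ F.obj (h n s X), g = 0) {X : SchO k} (hX : IsVar X)
    (hT : HasAffineTorsor X) (N : ℤ) :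
    ∃ (M r c : ℕ) (T : Fin (M + 1) → Fin (M + 1) → Fin (r + 1) → k), N + c < 2 * M + r ∧ ∀ n : ℤ, n ≤ N →
      (Lifts F I (h n 0 X) ↔ Lifts F I (h (n + c + 1) 0 (tenO T 0))) ∧
        (Lifts F I (h n 0 X) ↔ Lifts F I (h (n + c) 1 (tenO T 1))) := by
  obtain ⟨M, r, c, T, hb, hc⟩ := exists_compares' hh hX hT (2 * N)
  refine ⟨M, r, c, T, by omega, fun n hn => ?_⟩
  obtain ⟨⟨e⟩, ⟨f⟩⟩ := hc n 0 (by omega)
  rw [zero_add] at f
  exact ⟨(lifts_biprod (hw (n + 1) (0 - 1) X hX (by omega))).symm.trans (lifts_iso e.symm), lifts_iso f.symm⟩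

omit [Abelian 𝓝] in
/-- The smooth hypersurfaces. -/
theorem lifts_smooth {h : ℤ → ℤ → SchO k → 𝓜} (hh : IsHomology h)
    (hL : ∀ X : SchO k, IsVar X → IsAffine X.left → ∀ n : ℤ, Lifts F I (h n 0 X)) {M r : ℕ}
    (T : Fin (M + 1) → Fin (M + 1) → Fin (r + 1) → k) {n : ℤ} (hn : n < 2 * M + r) :
    Lifts F I (h n 1 (tenO T 1)) := by
  obtain ⟨Z, i, hZ, ha, hd⟩ := exists_locus (tq T)
  obtain ⟨e⟩ := hh.smooth_iso (n := n - r) (s := 0) (tq T) i hd (by push_cast; omega) (by push_cast; omega)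
  rw [sub_add_cancel, zero_add] at e
  exact (hL Z hZ ha (n - r)).iso e.symm

end Q54.HT
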