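import Pool.Agent.Q54.HT.Defs

/-!
# Homology of varieties and of cubic hypersurfaces
-/

set_option autoImplicit false

universe u v w

namespace Q54.HT

open Q54.CU Q54.CC CategoryTheory Limits AlgebraicGeometry

variable {k : Type u} [Field k] {𝓜 : Type w} [Category.{v} 𝓜] [Abelian 𝓜]
  {h : ℤ → ℤ → SchO k → 𝓜}

lemma IsHomology.space_zero (hh : IsHomology h) {X : SchO k} (hX : IsVar X) {M : ℕ} (p : X ⟶ pt k)
    (hp : IsAffineBundle M p.left) {n s : ℤ} (hn : 2 * n + s ≠ 2 * M) : IsZero (h n s X) := by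
  obtain ⟨e⟩ := hh.homotopy M p hX isVar_pt hp (n - M) s
  rw [sub_add_cancel] at e
  exact (hh.point (n - M) s (by omega)).of_iso e.symm

/-- The complement of a closed subscheme of an affine space. -/
lemma IsHomology.space_iso (hh : IsHomology h) {X : SchO k} (hX : IsVar X) {M : ℕ} (p : X ⟶ pt k)
    (hp : IsAffineBundle M p.left) {Z U : SchO k} (i : Z ⟶ X) (j : U ⟶ X) (hd : IsDecomp i j)
    {n s : ℤ} (h1 : 2 * n + s ≠ 2 * M) (h2 : 2 * n + s + 1 ≠ 2 * M) :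
    Nonempty (h n (s + 1) U ≅ h n s Z) := by
  obtain ⟨t, ht⟩ := hh.localization i j hX hd
  have z1 : IsZero (h n (s + 1) X) := hh.space_zero hX p hp (by omega)
  have z0 : IsZero (h n s X) := hh.space_zero hX p hp h1
  have hmono : Mono (t.d n s) := by
    obtain ⟨_, hex⟩ := (ht n s).2.1
    exact hex.mono_g (z1.eq_of_src _ _)
  have hepi : Epi (t.d n s) := by
    obtain ⟨_, hex⟩ := (ht n s).2.2
    exact hex.epi_f (z0.eq_of_tgt _ _)
  have hiso : IsIso (t.d n s) := isIso_of_mono_of_epi _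
  exact ⟨asIso (t.d n s)⟩

variable {M r : ℕ} (q : Fin (r + 1) → MvPolynomial (Fin M) k) {Z : SchO k}
    (i : Z ⟶ affO k M) (hd : IsDecomp i (cplInc q))

include hd

/-- The hypersurface `∑ λ_j q_j(x) = 1`. -/
theorem IsHomology.smooth_iso (hh : IsHomology h) {n s : ℤ} (h1 : 2 * n + s ≠ 2 * M)
    (h2 : 2 * n + s + 1 ≠ 2 * M) : Nonempty (h (n + r) (s + 1) (hypO q 1) ≅ h n s Z) := by
  obtain ⟨e⟩ := hh.homotopy r (hypO_to q) (isVar_hypO q 1) (isVar_cplO q) (hypO_to_bundle q) n (s + 1)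
  obtain ⟨f⟩ := hh.space_iso isVar_affO (affTo k M) (affStr_bundle k M) i (cplInc q) hd h1 h2
  exact ⟨e.symm ≪≫ f⟩

/-- The hypersurface `∑ λ_j q_j(x) = 0`. -/
theorem IsHomology.cone_iso (hh : IsHomology h) {n s : ℤ} (h0 : 2 * n + s + 2 < 2 * M) :
    Nonempty (h (n + r + 1) s (hypO q 0) ≅ dsum (h n s Z) (h (n + 1) (s - 1) Z)) := by
  obtain ⟨e0⟩ : Nonempty (h (n + r + 1) (s + 1) (torO k (HypRing q (1 : k))) ≅
      h (n + r + 1) s (specO k (HypRing q (0 : k)))) := by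
    refine hh.space_iso isVar_amb (ambTo k M r) ambTo_bundle (inC q) (inO q) (isDecomp_cone q) ?_ ?_
    · push_cast
      omega
    · push_cast
      omega
  obtain ⟨e1⟩ := hh.torus (HypRing q (1 : k)) inferInstance (n + r + 1) (s + 1)
  rw [← hypO_eq, add_sub_cancel_right, add_sub_cancel_right] at e1
  obtain ⟨e2⟩ : Nonempty (h (n + r) (s + 1) (hypO q 1) ≅ h n s Z) :=
    hh.smooth_iso q i hd (by omega) (by omega)
  obtain ⟨e3⟩ : Nonempty (h (n + 1 + r) (s - 1 + 1) (hypO q 1) ≅ h (n + 1) (s - 1) Z) :=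
    hh.smooth_iso q i hd (by omega) (by omega)
  rw [sub_add_cancel, add_right_comm] at e3
  rw [hypO_eq q 0]
  exact ⟨e0.symm ≪≫ e1 ≪≫ biprod.mapIso e2 e3⟩

omit hd

/-- The hypersurface `∑ T_{abc} x_a y_b z_c = t` in the affine space, where `x_0 = y_0 = 1`. -/
noncomputable def tenO {M r : ℕ} (T : Fin (M + 1) → Fin (M + 1) → Fin (r + 1) → k) (t : k) : SchO k :=
  hypO (tq T) t

lemma isVar_tenO {M r : ℕ} (T : Fin (M + 1) → Fin (M + 1) → Fin (r + 1) → k) (t : k) :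
    IsVar (tenO T t) :=
  isVar_hypO _ t

lemma isAffine_tenO {M r : ℕ} (T : Fin (M + 1) → Fin (M + 1) → Fin (r + 1) → k) (t : k) :
    IsAffine (tenO T t).left :=
  (inferInstance : IsAffine (HypSch (tq T) (t : k)))

/-- The homology of `X` in degrees at most `N` and that of the hypersurfaces `C` and `E`. -/
def Compares (h : ℤ → ℤ → SchO k → 𝓜) (X C E : SchO k) (c N : ℤ) : Prop :=
  ∀ n s : ℤ, 2 * n + s ≤ N →
    Nonempty (h (n + c + 1) s C ≅ dsum (h n s X) (h (n + 1) (s - 1) X)) ∧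
      Nonempty (h (n + c) (s + 1) E ≅ h n s X)

/-- **Varieties and cubic hypersurfaces given by tensors.** -/
theorem exists_compares (hh : IsHomology h) {X : SchO k} (hX : IsVar X) (hT : HasAffineTorsor X) (N : ℤ) :
    ∃ (M r c : ℕ) (T : Fin (M + 1) → Fin (M + 1) → Fin (r + 1) → k),
      Compares h X (tenO T 0) (tenO T 1) c N := by
  obtain ⟨Y, t, p, hY, ha, hp⟩ := hT
  obtain ⟨M, r, T, i, hM, hd⟩ := exists_tensor Y hY.ft ha (N + 2 * t + 3).toNat
  refine ⟨M, r, t + r, T, fun n s hn => ?_⟩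
  have hb : 2 * (n + t) + s + 2 < 2 * ((M + M : ℕ) : ℤ) := by
    push_cast
    omega
  obtain ⟨e1⟩ := hh.homotopy t p hY hX hp n s
  obtain ⟨e2⟩ := hh.homotopy t p hY hX hp (n + 1) (s - 1)
  obtain ⟨f⟩ := hh.cone_iso (tq T) i hd hb
  obtain ⟨g⟩ := hh.smooth_iso (n := n + t) (s := s) (tq T) i hd (by omega) (by omega)
  rw [add_right_comm n 1 (t : ℤ)] at e2
  have h1 : n + ((t + r : ℕ) : ℤ) = n + t + r := by
    push_cast
    ring
  rw [h1]
  exact ⟨⟨f ≪≫ biprod.mapIso e1.symm e2.symm⟩, ⟨g ≪≫ e1.symm⟩⟩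

end Q54.HT
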