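import Pool.Agent.Q54.HT.Sq
import Pool.Agent.Q54.CU.Smo

/-!
# Integral tensors, and restriction of scalars
-/

set_option autoImplicit false

universe u v w

namespace Q54.HT

open Q54.CU Q54.CC CategoryTheory Limits AlgebraicGeometry MvPolynomial

section scale

variable {k : Type u} [Field k]

lemma compl_smul {M r : ℕ} (q : Fin (r + 1) → MvPolynomial (Fin M) k) {c : k} (hc : c ≠ 0) :
    Q54.CU.compl (fun j => C c * q j) = Q54.CU.compl q := by
  ext x
  change x ∈ Q54.CU.compl (fun j => C c * q j) ↔ x ∈ Q54.CU.compl q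
  rw [mem_compl, mem_compl]
  refine exists_congr fun j => not_congr ⟨fun h => ?_, fun h => Ideal.mul_mem_left _ _ h⟩
  have h1 : C c⁻¹ * (C c * q j) = q j := by
    rw [← mul_assoc, ← C_mul, inv_mul_cancel₀ hc, C_1, one_mul]
  rw [← h1]
  exact Ideal.mul_mem_left _ _ h

lemma cplO_smul {M r : ℕ} (q : Fin (r + 1) → MvPolynomial (Fin M) k) {c : k} (hc : c ≠ 0) :
    cplO (fun j => C c * q j) = cplO q := by
  have h1 : ∀ U V : (Aff k M).Opens, U = V →
      (Over.mk (U.ι ≫ affStr k M) : SchO k) = Over.mk (V.ι ≫ affStr k M) := by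
    rintro U V rfl
    rfl
  exact h1 _ _ (compl_smul q hc)

lemma tq_smul {M r : ℕ} (T : Fin (M + 1) → Fin (M + 1) → Fin (r + 1) → k) (c : k) :
    tq (fun a b j => c * T a b j) = fun j => C c * tq T j := by
  funext j
  simp only [tq, Finset.mul_sum, C_mul, mul_assoc]

variable {𝓜 : Type w} [Category.{v} 𝓜] [Abelian 𝓜]

/-- The homology of the hypersurface does not change if the tensor is multiplied by a constant. -/
lemma scale_iso {h : ℤ → ℤ → SchO k → 𝓜} (hh : IsHomology h) {M r : ℕ}
    (T : Fin (M + 1) → Fin (M + 1) → Fin (r + 1) → k) {c : k} (hc : c ≠ 0) (n s : ℤ) :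
    Nonempty (h n s (tenO (fun a b j => c * T a b j) 1) ≅ h n s (tenO T 1)) := by
  have key : ∀ q : Fin (r + 1) → MvPolynomial (Fin (M + M)) k,
      Nonempty (h (n - r) s (cplO q) ≅ h n s (hypO q 1)) := by
    intro q
    obtain ⟨e⟩ := hh.homotopy r (hypO_to q) (isVar_hypO q 1) (isVar_cplO q) (hypO_to_bundle q) (n - r) s
    rw [sub_add_cancel] at e
    exact ⟨e⟩
  obtain ⟨e1⟩ := key (tq T)
  obtain ⟨e2⟩ := key (tq (fun a b j => c * T a b j))
  rw [tq_smul, cplO_smul _ hc] at e2
  have e3 : h n s (tenO (fun a b j => c * T a b j) 1) ≅ h (n - r) s (cplO (tq T)) := by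
    rw [tenO, tq_smul]
    exact e2.symm
  exact ⟨e3 ≪≫ e1⟩

end scale

/-- Every tensor over the rational numbers is a multiple of one with integer coefficients. -/
lemma exists_int_tensor {M r : ℕ} (T : Fin (M + 1) → Fin (M + 1) → Fin (r + 1) → ℚ) :
    ∃ (N : ℚ) (T' : Fin (M + 1) → Fin (M + 1) → Fin (r + 1) → ℤ), N ≠ 0 ∧
      (fun a b j => (T' a b j : ℚ)) = fun a b j => N * T a b j := by
  let N : ℕ := ∏ a, ∏ b, ∏ j, (T a b j).den
  have hN : (N : ℚ) ≠ 0 := by
    have : N ≠ 0 := Finset.prod_ne_zero_iff.2 fun a _ => Finset.prod_ne_zero_iff.2 fun b _ =>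
      Finset.prod_ne_zero_iff.2 fun j _ => (T a b j).den_ne_zero
    exact_mod_cast this
  have hd : ∀ a b j, (T a b j).den ∣ N := fun a b j =>
    ((Finset.dvd_prod_of_mem (fun j => (T a b j).den) (Finset.mem_univ j)).trans
      (Finset.dvd_prod_of_mem (fun b => ∏ j, (T a b j).den) (Finset.mem_univ b))).trans
      (Finset.dvd_prod_of_mem (fun a => ∏ b, ∏ j, (T a b j).den) (Finset.mem_univ a))
  choose m hm using hd
  refine ⟨N, fun a b j => (T a b j).num * (m a b j : ℤ), hN, ?_⟩
  funext a b j
  have h2 : T a b j * (T a b j).den = (T a b j).num := Rat.mul_den_eq_num _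
  push_cast
  rw [hm a b j]
  push_cast
  rw [← h2]
  ring

section scalars

variable (k : Type u) (K : Type u) [Field k] [Field K] [Algebra k K]

/-- The morphism `Spec K ⟶ Spec k`. -/
noncomputable def specMap : Spec (CommRingCat.of K) ⟶ Spec (CommRingCat.of k) :=
  Spec.map (CommRingCat.ofHom (algebraMap k K))

/-- A scheme over `K`, seen as a scheme over `k`. -/
noncomputable def resO (X : SchO K) : SchO k := Over.mk (X.hom ≫ specMap k K)

/-- The base change to `K` of a scheme over `k`. -/
noncomputable def bcO (Y : SchO k) : SchO K := Over.mk (pullback.snd Y.hom (specMap k K))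

variable {K} in
lemma isVar_resO [FiniteDimensional k K] {X : SchO K} (hX : IsVar X) : IsVar (resO k K X) := by
  have h1 := hX.ft.loc
  have h2 := hX.ft.qc
  have h3 := hX.sep
  have h4 : LocallyOfFiniteType (specMap k K) := by
    have : (CommRingCat.ofHom (algebraMap k K)).hom.FiniteType :=
      RingHom.finiteType_algebraMap.2 inferInstance
    exact (HasRingHomProperty.Spec_iff (P := @LocallyOfFiniteType)).2 this
  have h5 : IsAffineHom (specMap k K) := inferInstanceAs (IsAffineHom (Spec.map _))
  exact ⟨⟨(inferInstance : LocallyOfFiniteType (X.hom ≫ specMap k K)),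
    (inferInstance : QuasiCompact (X.hom ≫ specMap k K))⟩,
    (inferInstance : IsSeparated (X.hom ≫ specMap k K))⟩

lemma smooth_specMap [FiniteDimensional k K] [Algebra.IsSeparable k K] : Smooth (specMap k K) := by
  have h1 : Algebra.FormallyEtale k K := Algebra.FormallyEtale.of_isSeparable k K
  have h2 : Algebra.FormallySmooth k K := inferInstance
  have h3 : Algebra.FinitePresentation k K := Algebra.FinitePresentation.of_finiteType.1 inferInstance
  have h4 : Algebra.Smooth k K := ⟨h2, h3⟩
  have h5 : (CommRingCat.ofHom (algebraMap k K)).hom.Smooth := by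
    simpa using RingHom.smooth_algebraMap.2 h4
  exact (HasRingHomProperty.Spec_iff (P := @Smooth)).2 h5

lemma isProper_specMap [FiniteDimensional k K] : IsProper (specMap k K) := by
  have h1 : IsFinite (specMap k K) := by
    rw [specMap, IsFinite.SpecMap_iff]
    exact RingHom.finite_algebraMap.2 inferInstance
  infer_instance

variable {K} in
lemma isProper_resO [FiniteDimensional k K] {X : SchO K} (hX : IsProper X.hom) : IsProper (resO k K X).hom := by
  have h1 := isProper_specMap k K
  exact (inferInstance : IsProper (X.hom ≫ specMap k K))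

variable {K} in
lemma smooth_resO [FiniteDimensional k K] [Algebra.IsSeparable k K] {X : SchO K} (hX : Smooth X.hom) :
    Smooth (resO k K X).hom := by
  have h1 := smooth_specMap k K
  exact (inferInstance : Smooth (X.hom ≫ specMap k K))

variable {K} in
lemma hasAffineTorsor_resO [FiniteDimensional k K] {X : SchO K} (hX : HasAffineTorsor X) :
    HasAffineTorsor (resO k K X) := by
  obtain ⟨T, r, p, hT, ha, hp⟩ := hX
  refine ⟨resO k K T, r, Over.homMk p.left ?_, isVar_resO k hT, ha, hp⟩
  change p.left ≫ X.hom ≫ specMap k K = T.hom ≫ specMap k K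
  rw [← Category.assoc, Over.w p]

variable {k} in
lemma isVar_bcO {Y : SchO k} (hY : IsVar Y) : IsVar (bcO k K Y) := by
  have h1 := hY.ft.loc
  have h2 := hY.ft.qc
  have h3 := hY.sep
  exact ⟨⟨(inferInstance : LocallyOfFiniteType (pullback.snd Y.hom (specMap k K))),
    (inferInstance : QuasiCompact (pullback.snd Y.hom (specMap k K)))⟩,
    (inferInstance : IsSeparated (pullback.snd Y.hom (specMap k K)))⟩

end scalars

end Q54.HT
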