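import Pool.Agent.Q54.HT.Ss
import Pool.Agent.Q54.HT.Rat

/-!
# Resolutions of cubic hypersurfaces
-/

set_option autoImplicit false

universe u v w

namespace Q54.HT

open Q54.CU Q54.CC CategoryTheory Limits AlgebraicGeometry MvPolynomial

section weights

variable {𝓜 : Type w} [Category.{v} 𝓜] [Abelian 𝓜]

lemma epi_of_cokernel {P W : ℤ → 𝓜 → Prop} (hW : IsWeights P W) {m : ℤ} {A B N : 𝓜} (f : A ⟶ B)
    (g : B ⟶ N) [Epi g] (hC : W (m + 1) (cokernel f)) (hN : P m N) : Epi (f ≫ g) := by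
  let π : N ⟶ cokernel (f ≫ g) := cokernel.π (f ≫ g)
  have h2 : f ≫ g ≫ π = 0 := by
    rw [← Category.assoc]
    exact cokernel.condition _
  let e : cokernel f ⟶ cokernel (f ≫ g) := cokernel.desc f (g ≫ π) h2
  have h3 : cokernel.π f ≫ e = g ≫ π := cokernel.π_desc _ _ _
  have h4 : Epi e := by
    have h5 : Epi (cokernel.π f ≫ e) := by
      rw [h3]
      exact epi_comp _ _
    exact epi_of_epi (cokernel.π f) e
  have h6 : W (m + 1) (cokernel (f ≫ g)) := hW.quot e h4 hC
  have h7 : π = 0 := hW.hom_zero π hN h6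
  exact Abelian.epi_of_cokernel_π_eq_zero _ h7

end weights

variable {k : Type u} [Field k] {𝓜 : Type w} [Category.{v} 𝓜] [Abelian 𝓜]

/-- The cokernel of a morphism from the homology of `V'` to the homology of `V` has only higher
weights. This holds if `V` is complete and there is a proper surjective morphism from the smooth
variety `V'` onto `V` (a resolution of singularities or an alteration). -/
def Covers (h : ℤ → ℤ → SchO k → 𝓜) (W : ℤ → 𝓜 → Prop) (V' V : SchO k) : Prop :=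
  ∀ n s : ℤ, ∃ f : h n s V' ⟶ h n s V, W (-s + 1) (cokernel f)

/-- **Smooth projective varieties and resolutions of cubic hypersurfaces.** -/
theorem exists_quotient_res {h : ℤ → ℤ → SchO k → 𝓜} (hh : IsHomology h) {P W : ℤ → 𝓜 → Prop}
    (hW : IsWeights P W) (hw : HasWeights h P W) {X : SchO k} (hX : IsVar X) (hs : Smooth X.hom)
    (hp : IsProper X.hom) (hT : HasAffineTorsor X) :
    ∃ (M r c : ℕ) (T : Fin (M + 1) → Fin (M + 1) → Fin (r + 1) → k), ∀ V V' : SchO k, IsVar V →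
      ContainsOpen V (tenO T 0) → Covers h W V' V → ∀ n s : ℤ, IsQuotient (h (n + c) s V') (h n s X) := by
  obtain ⟨M, r, c, T, h1⟩ := exists_quotient hh hW hw hX hs hp hT
  refine ⟨M, r, c, T, fun V V' hV hVC hc n s => ?_⟩
  obtain ⟨g, hg⟩ := h1 V hV hVC n s
  obtain ⟨f, hf⟩ := hc (n + c) s
  exact ⟨f ≫ g, epi_of_cokernel hW f g hf (hw.pure n s X hX hs hp)⟩

lemma hypO_smul {M r : ℕ} (q : Fin (r + 1) → MvPolynomial (Fin M) k) {c : k} (hc : c ≠ 0) :
    hypO (fun j => C c * q j) 0 = hypO q 0 := by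
  have h1 : ∀ I J : Ideal (MvPolynomial (Fin M ⊕ Fin (r + 1)) k), I = J →
      (Over.mk (Spec.map (CommRingCat.ofHom ((Ideal.Quotient.mk I).comp
        (rename (R := k) (Sum.inl : Fin M → Fin M ⊕ Fin (r + 1))).toRingHom)) ≫ affStr k M) : SchO k) =
      Over.mk (Spec.map (CommRingCat.ofHom ((Ideal.Quotient.mk J).comp
        (rename (R := k) (Sum.inl : Fin M → Fin M ⊕ Fin (r + 1))).toRingHom)) ≫ affStr k M) := by
    rintro I J rfl
    rfl
  refine h1 _ _ ?_
  have h2 : hypPoly (fun j => C c * q j) 0 = C c * hypPoly q 0 := by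
    simp only [hypPoly, map_mul, rename_C, C_0, sub_zero, Finset.mul_sum]
    exact Finset.sum_congr rfl fun j _ => by ring
  have h3 : IsUnit (C c : MvPolynomial (Fin M ⊕ Fin (r + 1)) k) :=
    (isUnit_iff_ne_zero.2 hc).map (C : k →+* MvPolynomial (Fin M ⊕ Fin (r + 1)) k)
  rw [h2, Ideal.span_singleton_mul_left_unit h3]

lemma tenO_smul {M r : ℕ} (T : Fin (M + 1) → Fin (M + 1) → Fin (r + 1) → k) {c : k} (hc : c ≠ 0) :
    tenO (fun a b j => c * T a b j) 0 = tenO T 0 := by
  rw [tenO, tq_smul]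
  exact hypO_smul _ hc

/-- Over the rational numbers integer tensors suffice. -/
theorem exists_quotient_res_int {h : ℤ → ℤ → SchO ℚ → 𝓜} (hh : IsHomology h) {P W : ℤ → 𝓜 → Prop}
    (hW : IsWeights P W) (hw : HasWeights h P W) {X : SchO ℚ} (hX : IsVar X) (hs : Smooth X.hom)
    (hp : IsProper X.hom) (hT : HasAffineTorsor X) :
    ∃ (M r c : ℕ) (T : Fin (M + 1) → Fin (M + 1) → Fin (r + 1) → ℤ), ∀ V V' : SchO ℚ, IsVar V →
      ContainsOpen V (tenO (fun a b j => (T a b j : ℚ)) 0) → Covers h W V' V →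
        ∀ n s : ℤ, IsQuotient (h (n + c) s V') (h n s X) := by
  obtain ⟨M, r, c, T, h1⟩ := exists_quotient_res hh hW hw hX hs hp hT
  obtain ⟨N, T', hN, hT'⟩ := exists_int_tensor T
  refine ⟨M, r, c, T', fun V V' hV hVC => h1 V V' hV ?_⟩
  rwa [hT', tenO_smul T hN] at hVC

end Q54.HT
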