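import Pool.Agent.Q54.HT.Main
import Pool.Agent.Q54.CC.All

/-!
# Simple subquotients
-/

set_option autoImplicit false

universe u v w

namespace Q54.HT

open Q54.CU Q54.CC CategoryTheory Limits AlgebraicGeometry

section abelian

variable {𝓜 : Type w} [Category.{v} 𝓜] [Abelian 𝓜]

/-- `S` is isomorphic to a subquotient of `A`: there are a subobject `B` of `A` and an epimorphism
`B ⟶ S`. -/
def IsSubquot (S A : 𝓜) : Prop := ∃ (B : 𝓜) (i : B ⟶ A) (p : B ⟶ S), Mono i ∧ Epi p

omit [Abelian 𝓜] in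
lemma IsSubquot.iso {S A A' : 𝓜} (h : IsSubquot S A) (e : A ≅ A') : IsSubquot S A' := by
  obtain ⟨B, i, p, hi, hp⟩ := h
  exact ⟨B, i ≫ e.hom, p, mono_comp _ _, hp⟩

/-- A simple subquotient of the middle term of an exact sequence is one of an outer term. -/
lemma IsSubquot.exact {S A B C : 𝓜} [Simple S] {f : A ⟶ B} {g : B ⟶ C} (hex : ExactAt f g)
    (h : IsSubquot S B) : IsSubquot S A ∨ IsSubquot S C := by
  obtain ⟨D, i, p, hi, hp⟩ := h
  obtain ⟨hz, hex⟩ := hex
  let κ : kernel (i ≫ g) ⟶ D := kernel.ι (i ≫ g)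
  by_cases h0 : κ ≫ p = 0
  · right
    let e : D ⟶ image (i ≫ g) := factorThruImage (i ≫ g)
    have h1 : kernel.ι e ≫ p = 0 := by
      have h2 : kernel.ι e ≫ (i ≫ g) = 0 := by
        have h3 : e ≫ image.ι (i ≫ g) = i ≫ g := image.fac _
        have h3' : kernel.ι e ≫ (e ≫ image.ι (i ≫ g)) = 0 := by
          rw [← Category.assoc, kernel.condition, zero_comp]
        exact (congrArg (kernel.ι e ≫ ·) h3.symm).trans h3'
      have h4 : kernel.lift (i ≫ g) (kernel.ι e) h2 ≫ κ = kernel.ι e := kernel.lift_ι _ _ _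
      rw [← h4, Category.assoc, h0, comp_zero]
    have h5 : e ≫ Abelian.epiDesc e p h1 = p := Abelian.comp_epiDesc _ _ _
    have h6 : Epi (Abelian.epiDesc e p h1) := by
      have h7 : Epi (e ≫ Abelian.epiDesc e p h1) := by
        rw [h5]
        exact hp
      exact epi_of_epi e _
    exact ⟨_, image.ι (i ≫ g), Abelian.epiDesc e p h1, inferInstance, h6⟩
  · left
    have h1 : Epi (κ ≫ p) := epi_of_nonzero_to_simple h0
    have h2 : (κ ≫ i) ≫ g = 0 := by
      rw [Category.assoc]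
      exact kernel.condition _
    obtain ⟨A', π, hπ, x, hx⟩ := (ShortComplex.exact_iff_exact_up_to_refinements _).1 hex (κ ≫ i) h2
    have hx : π ≫ κ ≫ i = x ≫ f := hx
    let P := pullback f (κ ≫ i)
    have h3 : pullback.lift x π hx.symm ≫ pullback.snd f (κ ≫ i) = π := pullback.lift_snd _ _ _
    have h4 : Epi (pullback.snd f (κ ≫ i)) := by
      have h5 : Epi (pullback.lift x π hx.symm ≫ pullback.snd f (κ ≫ i)) := by
        rw [h3]
        exact hπ
      exact epi_of_epi (pullback.lift x π hx.symm) _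
    have h6 : Mono (κ ≫ i) := mono_comp _ _
    exact ⟨P, pullback.fst f (κ ≫ i), pullback.snd f (κ ≫ i) ≫ κ ≫ p, inferInstance, epi_comp _ _⟩

end abelian

variable {k : Type u} [Field k] {𝓜 : Type w} [Category.{v} 𝓜] [Abelian 𝓜]

/-- The object `S` occurs, up to a Tate twist, as a subquotient of the homology of `X`. -/
def Occurs (h : ℤ → ℤ → SchO k → 𝓜) (S : 𝓜) (X : SchO k) : Prop :=
  ∃ n s, IsSubquot S (h n s X)

/-- **Simple objects that occur in the homology of varieties.** -/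
theorem occurs_cubic {h : ℤ → ℤ → SchO k → 𝓜} (hh : IsHomology h) {S : 𝓜} (hS : Simple S) {X : SchO k}
    (hX : IsVar X) (hXS : Occurs h S X) :
    ∃ (M r : ℕ) (T : Fin (M + 1) → Fin (M + 1) → Fin (r + 1) → k), Occurs h S (tenO T 1) := by
  have h1 := devissage (S := Spec (CommRingCat.of k))
    (fun X => IsVar X → Occurs h S X → ∃ (M r : ℕ) (T : Fin (M + 1) → Fin (M + 1) → Fin (r + 1) → k),
      Occurs h S (tenO T 1))
    (fun {Z X U} i j _ hd hZ hU hX hS => ?_) (fun X _ ha hX hS => ?_) X hX.ft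
  · exact h1 hX hXS
  · obtain ⟨n, s, hns⟩ := hS
    obtain ⟨t, ht⟩ := hh.localization i j hX hd
    rcases hns.exact (ht n s).1 with h2 | h2
    · exact hZ (IsVar.of_closed i hd.closed hX) ⟨n, s, h2⟩
    · exact hU (IsVar.of_open j hd.opn hX) ⟨n, s, h2⟩
  · obtain ⟨n, s, hns⟩ := hS
    obtain ⟨M, r, c, T, hc⟩ := exists_compares hh hX (hasAffineTorsor_of_affine hX ha) (2 * n + s)
    obtain ⟨e⟩ := (hc n s le_rfl).2
    exact ⟨M, r, T, n + c, s + 1, hns.iso e.symm⟩

end Q54.HT
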