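import Pool.Agent.Q54.HT.Wt

/-!
# Semisimple objects
-/

set_option autoImplicit false

universe u v w

namespace Q54.HT

open CategoryTheory Limits

variable {𝓜 : Type w} [Category.{v} 𝓜] [Abelian 𝓜]

/-- Every subobject of `A` is a direct summand. -/
def IsSemisimpleObj (A : 𝓜) : Prop := ∀ (B : 𝓜) (f : B ⟶ A), Mono f → ∃ g : A ⟶ B, f ≫ g = 𝟙 B

lemma IsSemisimpleObj.quotient {A B : 𝓜} (hA : IsSemisimpleObj A) (hq : IsQuotient A B) :
    IsSemisimpleObj B := by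
  obtain ⟨f, hf⟩ := hq
  obtain ⟨ρ, hρ⟩ := hA _ (kernel.ι f) inferInstance
  have h1 : kernel.ι f ≫ (𝟙 A - ρ ≫ kernel.ι f) = 0 := by
    rw [Preadditive.comp_sub, Category.comp_id, ← Category.assoc, hρ, Category.id_comp, sub_self]
  let σ : B ⟶ A := Abelian.epiDesc f _ h1
  have h2 : f ≫ σ = 𝟙 A - ρ ≫ kernel.ι f := Abelian.comp_epiDesc _ _ _
  have h3 : σ ≫ f = 𝟙 B := by
    rw [← cancel_epi f, ← Category.assoc, h2, Preadditive.sub_comp, Category.assoc, kernel.condition,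
      comp_zero, sub_zero, Category.id_comp, Category.comp_id]
  intro K m hm
  have h4 : SplitMono σ := ⟨f, h3⟩
  have h5 : Mono σ := h4.mono
  obtain ⟨g, hg⟩ := hA K (m ≫ σ) (mono_comp _ _)
  exact ⟨σ ≫ g, by rw [← Category.assoc, hg]⟩

end Q54.HT
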