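import Pool.Agent.Q54.HT.Main
import Pool.Agent.Q54.CC.All

/-!
# Weights and completions
-/

set_option autoImplicit false

universe u v w

namespace Q54.HT

open Q54.CU Q54.CC CategoryTheory Limits AlgebraicGeometry

variable {k : Type u} [Field k] {𝓜 : Type w} [Category.{v} 𝓜] [Abelian 𝓜]

/-- Weights in an abelian category: `P m A` stands for `the object A is pure of weight m`, and
`W m A` for `all weights of A are at least m`. -/
structure IsWeights (P W : ℤ → 𝓜 → Prop) : Prop where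
  sub : ∀ {m : ℤ} {A B : 𝓜} (f : A ⟶ B), Mono f → W m B → W m A
  quot : ∀ {m : ℤ} {A B : 𝓜} (f : A ⟶ B), Epi f → W m A → W m B
  hom_zero : ∀ {m : ℤ} {A B : 𝓜} (f : A ⟶ B), P m A → W (m + 1) B → f = 0

/-- The weights of the homology: the weights of `h n s X = H_(2 n + s)(X)(-n)` are at least `-s`, and
if `X` is smooth and proper it is pure of weight `-s`. -/
structure HasWeights (h : ℤ → ℤ → SchO k → 𝓜) (P W : ℤ → 𝓜 → Prop) : Prop where
  weights : ∀ n s X, IsVar X → W (-s) (h n s X)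
  pure : ∀ n s X, IsVar X → Smooth X.hom → IsProper X.hom → P (-s) (h n s X)

/-- `B` is isomorphic to a quotient of `A`. -/
def IsQuotient (A B : 𝓜) : Prop := ∃ f : A ⟶ B, Epi f

lemma epi_of_weights {P W : ℤ → 𝓜 → Prop} (hW : IsWeights P W) {m : ℤ} {A B C N : 𝓜} (f : A ⟶ B)
    (d : B ⟶ C) (hex : ExactAt f d) (g : B ⟶ N) [Epi g] (hC : W (m + 1) C) (hN : P m N) : Epi (f ≫ g) := by
  obtain ⟨hz, hex⟩ := hex
  have hmono : Mono (cokernel.desc f d hz) := hex.mono_cokernelDesc
  have h1 : W (m + 1) (cokernel f) := hW.sub _ hmono hC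
  let π : N ⟶ cokernel (f ≫ g) := cokernel.π (f ≫ g)
  have h2 : f ≫ g ≫ π = 0 := by
    rw [← Category.assoc]
    exact cokernel.condition _
  let e : cokernel f ⟶ cokernel (f ≫ g) := cokernel.desc f (g ≫ π) h2
  have h3 : cokernel.π f ≫ e = g ≫ π := cokernel.π_desc _ _ _
  have h4 : Epi e := by
    have h5 : Epi (cokernel.π f ≫ e) := by
      rw [h3]
      exact epi_comp _ _
    exact epi_of_epi (cokernel.π f) e
  have h6 : W (m + 1) (cokernel (f ≫ g)) := hW.quot e h4 h1
  have h7 : π = 0 := hW.hom_zero π hN h6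
  exact Abelian.epi_of_cokernel_π_eq_zero _ h7

/-- **Completions.** If `X` is smooth and proper, the homology of `X` is a quotient of that of every
variety `V` that contains the hypersurface `C` as an open subscheme. -/
theorem quotient_of_open {h : ℤ → ℤ → SchO k → 𝓜} (hh : IsHomology h) {P W : ℤ → 𝓜 → Prop} (hW : IsWeights P W)
    (hw : HasWeights h P W) {X C E : SchO k} {c N : ℤ} (hc : Compares h X C E c N) (hX : IsVar X)
    (hs : Smooth X.hom) (hp : IsProper X.hom) {Z V : SchO k} (i : Z ⟶ V) (j : C ⟶ V) (hV : IsVar V)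
    (hd : IsDecomp i j) {n s : ℤ} (hn : 2 * n + s ≤ N) : IsQuotient (h (n + c + 1) s V) (h n s X) := by
  obtain ⟨⟨e⟩, -⟩ := hc n s hn
  obtain ⟨t, ht⟩ := hh.localization i j hV hd
  have hex := (ht (n + c + 1) (s - 1)).2.1
  have key : ∀ s' : ℤ, s' + 1 = s → ExactAt (t.b (n + c + 1) (s' + 1)) (t.d (n + c + 1) s') →
      IsQuotient (h (n + c + 1) s V) (h n s X) := by
    rintro s' rfl hex
    have h1 : W (-(s' + 1) + 1) (h (n + c + 1) s' Z) := by
      have h2 := hw.weights (n + c + 1) s' Z (IsVar.of_closed i hd.closed hV)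
      rwa [show -(s' + 1) + 1 = -s' by ring]
    have h3 : Epi (e.hom ≫ biprod.fst) := epi_comp _ _
    exact ⟨_, epi_of_weights hW _ _ hex (e.hom ≫ biprod.fst) h1 (hw.pure n _ X hX hs hp)⟩
  exact key (s - 1) (by ring) hex

lemma isQuotient_of_isZero {A B : 𝓜} (hB : IsZero B) : IsQuotient A B :=
  ⟨0, ⟨fun _ _ _ => hB.eq_of_src _ _⟩⟩

/-- The variety `V` contains `C` as an open subscheme. -/
def ContainsOpen (V C : SchO k) : Prop :=
  ∃ (Z : SchO k) (i : Z ⟶ V) (j : C ⟶ V), IsDecomp i j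

/-- **Smooth projective varieties and completions of singular cubic hypersurfaces.** -/
theorem exists_quotient {h : ℤ → ℤ → SchO k → 𝓜} (hh : IsHomology h) {P W : ℤ → 𝓜 → Prop}
    (hW : IsWeights P W) (hw : HasWeights h P W) {X : SchO k} (hX : IsVar X) (hs : Smooth X.hom)
    (hp : IsProper X.hom) (hT : HasAffineTorsor X) :
    ∃ (M r c : ℕ) (T : Fin (M + 1) → Fin (M + 1) → Fin (r + 1) → k), ∀ V : SchO k, IsVar V →
      ContainsOpen V (tenO T 0) → ∀ n s : ℤ, IsQuotient (h (n + c) s V) (h n s X) := by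
  obtain ⟨N, hN⟩ := hh.bounded X hX
  obtain ⟨M, r, c, T, hc⟩ := exists_compares hh hX hT N
  refine ⟨M, r, c + 1, T, fun V hV hVC n s => ?_⟩
  obtain ⟨Z, i, j, hd⟩ := hVC
  by_cases hn : 2 * n + s ≤ N
  · have h1 := quotient_of_open hh hW hw hc hX hs hp i j hV hd hn
    rwa [show n + ((c + 1 : ℕ) : ℤ) = n + c + 1 by push_cast; ring]
  · exact isQuotient_of_isZero (hN n s (by omega))

end Q54.HT
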